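import Mathlib
import Pool.Agent.Q71.OS.Defs
import Pool.Agent.Q237.DN.Exp
import Pool.Agent.Q237.DN.Geo
import Pool.Agent.Q174.DN.Real

/-!
# Project OS: job OS-1 (helper65)

The box given by the digits of a point with the block pattern.  The proofs follow the files
`Pool/Agent/Q237/DN/{Exp,Geo}.lean` and `Pool/Agent/Q174/DN/Real.lean`.
-/

set_option autoImplicit false

namespace Pool.Agent.Q65.OS

open Finset Pool.Agent.Q71.OS Pool.Agent.Q71.DN Pool.Agent.Q237.DN

theorem trg_eq {q : ℕ} (hq : 0 < q) (d : ℕ → ℕ) (u : ℕ) :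
    trg q d u = (Nn q d u : ℝ) / (q : ℝ) ^ u := by
  rw [← Nn_sum hq]
  rfl

/-- Membership of one coordinate in the interval. -/
theorem one_coord {q m : ℕ} (hqp : 0 < q) {d e : ℕ → ℕ} (hd : ∀ i, d i < q) (he : ∀ i, e i < q)
    {l u : ℕ} (hl : l ≤ u) (hu : u ≤ m) {y : ℝ} (h1 : trg q d m ≤ y)
    (h2 : y < trg q d m + 1 / (q : ℝ) ^ m) :
    (trg q e l ≤ y ∧ y < trg q e u) ↔
      ∃ i, l ≤ i ∧ i < u ∧ (∀ i' < i, d i' = e i') ∧ d i < e i := by
  have hq0 : (0 : ℝ) < (q : ℝ) := by exact_mod_cast hqp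
  rw [trg_eq hqp] at h1 h2
  rw [trg_eq hqp, trg_eq hqp]
  -- the integers
  have hNl := Nn_add hqp hd l (m - l)
  have hNu := Nn_add hqp hd u (m - u)
  rw [Nat.add_sub_cancel' (hl.trans hu)] at hNl
  rw [Nat.add_sub_cancel' hu] at hNu
  have hsplit : ∀ w ≤ m, (q : ℝ) ^ m = (q : ℝ) ^ w * (q : ℝ) ^ (m - w) := fun w hw => by
    rw [← pow_add, Nat.add_sub_cancel' hw]
  have hml := hsplit l (hl.trans hu)
  have hmu := hsplit u hu
  have e1 : ((Nn q e l : ℝ) / (q : ℝ) ^ l ≤ y) ↔
      ¬ (Nn q d l < Nn q e l) := by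
    constructor
    · intro h hlt
      have h3 : (Nn q e l : ℝ) / (q : ℝ) ^ l <
          ((Nn q d m : ℝ) + 1) / (q : ℝ) ^ m := by
        calc _ ≤ y := h
          _ < _ := h2
          _ = _ := by rw [add_div]
      rw [div_lt_div_iff₀ (pow_pos hq0 _) (pow_pos hq0 _), hml] at h3
      have h4 : (Nn q e l : ℝ) * (q : ℝ) ^ (m - l) < (Nn q d m : ℝ) + 1 := by
        have h5 : (Nn q e l : ℝ) * (q : ℝ) ^ (m - l) * (q : ℝ) ^ l <
            ((Nn q d m : ℝ) + 1) * (q : ℝ) ^ l := by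
          calc _ = (Nn q e l : ℝ) * ((q : ℝ) ^ l * (q : ℝ) ^ (m - l)) := by ring
            _ < _ := h3
        exact lt_of_mul_lt_mul_right h5 (pow_pos hq0 _).le
      have h6 : Nn q e l * q ^ (m - l) < Nn q d m + 1 := by
        exact_mod_cast h4
      have h7 : (Nn q d l + 1) * q ^ (m - l) ≤ Nn q e l * q ^ (m - l) :=
        Nat.mul_le_mul_right _ hlt
      omega
    · intro h
      refine le_trans ?_ h1
      rw [div_le_div_iff₀ (pow_pos hq0 _) (pow_pos hq0 _), hml]
      have h3 : Nn q e l * q ^ (m - l) ≤ Nn q d m :=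
        (Nat.mul_le_mul_right _ (not_lt.1 h)).trans hNl.1
      have h4 : (Nn q e l : ℝ) * (q : ℝ) ^ (m - l) ≤ (Nn q d m : ℝ) := by
        exact_mod_cast h3
      calc (Nn q e l : ℝ) * ((q : ℝ) ^ l * (q : ℝ) ^ (m - l)) =
          ((Nn q e l : ℝ) * (q : ℝ) ^ (m - l)) * (q : ℝ) ^ l := by ring
        _ ≤ _ := mul_le_mul_of_nonneg_right h4 (pow_pos hq0 _).le
  have e2 : (y < (Nn q e u : ℝ) / (q : ℝ) ^ u) ↔
      Nn q d u < Nn q e u := by
    constructor
    · intro h
      have h3 : (Nn q d m : ℝ) / (q : ℝ) ^ m <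
          (Nn q e u : ℝ) / (q : ℝ) ^ u := h1.trans_lt h
      rw [div_lt_div_iff₀ (pow_pos hq0 _) (pow_pos hq0 _), hmu] at h3
      have h4 : (Nn q d m : ℝ) < (Nn q e u : ℝ) * (q : ℝ) ^ (m - u) := by
        have h5 : (Nn q d m : ℝ) * (q : ℝ) ^ u <
            (Nn q e u : ℝ) * (q : ℝ) ^ (m - u) * (q : ℝ) ^ u := by
          calc _ < (Nn q e u : ℝ) * ((q : ℝ) ^ u * (q : ℝ) ^ (m - u)) := h3
            _ = _ := by ring
        exact lt_of_mul_lt_mul_right h5 (pow_pos hq0 _).le
      have h6 : Nn q d m < Nn q e u * q ^ (m - u) := by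
        exact_mod_cast h4
      exact lt_of_mul_lt_mul_right (hNu.1.trans_lt h6) (Nat.zero_le _)
    · intro h
      refine h2.trans_le ?_
      rw [← add_div, div_le_div_iff₀ (pow_pos hq0 _) (pow_pos hq0 _), hmu]
      have h3 : Nn q d m + 1 ≤ Nn q e u * q ^ (m - u) := by
        have h5 : (Nn q d u + 1) * q ^ (m - u) ≤ Nn q e u * q ^ (m - u) :=
          Nat.mul_le_mul_right _ h
        omega
      have h4 : (Nn q d m : ℝ) + 1 ≤
          (Nn q e u : ℝ) * (q : ℝ) ^ (m - u) := by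
        exact_mod_cast h3
      calc ((Nn q d m : ℝ) + 1) * (q : ℝ) ^ u ≤
          (Nn q e u : ℝ) * (q : ℝ) ^ (m - u) * (q : ℝ) ^ u :=
            mul_le_mul_of_nonneg_right h4 (pow_pos hq0 _).le
        _ = _ := by ring
  rw [e1, e2, Nn_lex hd he, Nn_lex hd he]
  constructor
  · rintro ⟨h3, i, hi, h4, h5⟩
    refine ⟨i, ?_, hi, h4, h5⟩
    by_contra hcon
    exact h3 ⟨i, not_le.1 hcon, h4, h5⟩
  · rintro ⟨i, hli, hi, h4, h5⟩
    refine ⟨?_, i, hi, h4, h5⟩
    rintro ⟨i', hi', -, h7⟩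
    have := h4 i' (lt_of_lt_of_le hi' hli)
    omega

open Classical in
/-- The indicator of the agreement of the first `a` digits. -/
noncomputable def Zg (d e : ℕ → ℕ) (a : ℕ) : ℝ :=
  if ∀ i < a, d i = e i then 1 else 0

/-- The first difference of `d` and `e` exists and its position satisfies `S`. -/
def FstD (d e : ℕ → ℕ) (S : ℕ → Prop) : Prop :=
  ∃ i, S i ∧ d i ≠ e i ∧ ∀ i' < i, d i' = e i'

open Classical in
theorem fst_OnD {k L : ℕ} (hk : 1 ≤ k) (l : ℕ) (d e : ℕ → ℕ) :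
    (if FstD d e (On k l (k * (2 * L))) then (1 : ℝ) else 0) =
      ∑ n ∈ range (2 * L), (-1 : ℝ) ^ n * Zg d e (l + k * n) := by
  by_cases hex : ∃ i, d i ≠ e i
  · obtain ⟨i₀, hi₀, hmin⟩ : ∃ i₀, d i₀ ≠ e i₀ ∧ ∀ i < i₀, d i = e i :=
      ⟨Nat.find hex, Nat.find_spec hex, fun i hi => not_not.1 (Nat.find_min hex hi)⟩
    have hF : ∀ S : ℕ → Prop, FstD d e S ↔ S i₀ := by
      intro S
      constructor
      · rintro ⟨i, h1, h2, h3⟩
        rcases lt_trichotomy i i₀ with h | h | h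
        · exact absurd (hmin i h) h2
        · rwa [← h]
        · exact absurd (h3 i₀ h) hi₀
      · intro h
        exact ⟨i₀, h, hi₀, hmin⟩
    have hZ : ∀ a, Zg d e a = if a ≤ i₀ then 1 else 0 := by
      intro a
      unfold Zg
      by_cases h : a ≤ i₀
      · rw [if_pos h, if_pos (fun i hi => hmin i (lt_of_lt_of_le hi h))]
      · rw [if_neg h, if_neg (fun h' => hi₀ (h' i₀ (not_le.1 h)))]
    by_cases hl : l ≤ i₀
    · obtain ⟨n₀, hn₀⟩ : ∃ n₀, n₀ = (i₀ - l) / k := ⟨_, rfl⟩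
      have hle : ∀ n, l + k * n ≤ i₀ ↔ n ≤ n₀ := by
        intro n
        rw [hn₀, Nat.le_div_iff_mul_le hk, mul_comm n k]
        omega
      have h1 : ∑ n ∈ range (2 * L), (-1 : ℝ) ^ n * Zg d e (l + k * n) =
          ∑ n ∈ (range (2 * L)).filter (fun n => n ≤ n₀), (-1 : ℝ) ^ n := by
        rw [Finset.sum_filter]
        refine Finset.sum_congr rfl fun n _ => ?_
        rw [hZ]
        by_cases h : n ≤ n₀
        · rw [if_pos h, if_pos ((hle n).2 h), mul_one]
        · rw [if_neg h, if_neg (fun h' => h ((hle n).1 h')), mul_zero]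
      rw [h1]
      by_cases hb : n₀ < 2 * L
      · have h2 : (range (2 * L)).filter (fun n => n ≤ n₀) = range (n₀ + 1) := by
          ext n
          rw [Finset.mem_filter, Finset.mem_range, Finset.mem_range]
          omega
        rw [h2, alt_range]
        have h3 : i₀ < l + k * (2 * L) := by
          by_contra hcon
          have := (hle (2 * L)).1 (not_lt.1 hcon)
          omega
        by_cases he : Even n₀
        · rw [if_pos ((hF _).2 ⟨hl, h3, by rw [← hn₀]; exact he⟩), if_neg]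
          rw [Nat.even_add_one]
          exact not_not.2 he
        · rw [if_neg, if_pos (by rw [Nat.even_add_one]; exact he)]
          rw [hF]
          rintro ⟨-, -, h5⟩
          rw [← hn₀] at h5
          exact he h5
      · have h2 : (range (2 * L)).filter (fun n => n ≤ n₀) = range (2 * L) := by
          ext n
          rw [Finset.mem_filter, Finset.mem_range]
          omega
        rw [h2, alt_range, if_pos (even_two_mul L), if_neg]
        rw [hF]
        rintro ⟨-, h4, -⟩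
        have := (hle (2 * L)).2 (not_lt.1 hb)
        omega
    · rw [if_neg]
      · refine (Finset.sum_eq_zero fun n _ => ?_).symm
        rw [hZ, if_neg (by omega), mul_zero]
      · rw [hF]
        rintro ⟨h4, -, -⟩
        exact hl h4
  · push Not at hex
    have hZ : ∀ a, Zg d e a = 1 := fun a => if_pos fun i _ => hex i
    rw [if_neg]
    · have : ∀ n ∈ range (2 * L), (-1 : ℝ) ^ n * Zg d e (l + k * n) = (-1 : ℝ) ^ n :=
        fun n _ => by rw [hZ, mul_one]
      rw [Finset.sum_congr rfl this, alt_range, if_pos (even_two_mul L)]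
    · rintro ⟨i, -, h, -⟩
      exact h (hex i)

/-- **OS-1.** -/
theorem t_Box : StmBox := by
  classical
  intro b m D k L g z R p l hb hk hL hg hz hR hl hpat
  have hP : 2 * L - 1 + 1 = 2 * L := by omega
  have hb0 : 0 < b := by omega
  have hb1 : 1 ≤ b := hb0
  have hbr : (0 : ℝ) < (b : ℝ) := by exact_mod_cast hb0
  obtain ⟨w, hw⟩ : ∃ w, w = k * (2 * L) := ⟨_, rfl⟩
  rw [← hw] at hl
  have hbox := hR (fun j => trg b (g p j) (l j)) (fun j => trg b (g p j) (l j + w)) ?_
  swap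
  · intro j
    refine ⟨?_, ?_, ?_⟩
    · rw [trg_eq hb0]
      exact div_nonneg (Nat.cast_nonneg _) (pow_pos hbr _).le
    · unfold trg
      refine Finset.sum_le_sum_of_subset_of_nonneg ?_ fun i _ _ =>
        div_nonneg (Nat.cast_nonneg _) (pow_pos hbr _).le
      intro i hi
      rw [Finset.mem_range] at hi ⊢
      omega
    · rw [trg_eq hb0, div_le_one (pow_pos hbr _)]
      have := (Nn_lt hb0 (hg p j) (l j + w)).le
      exact_mod_cast this
  refine le_of_eq_of_le (congrArg _ ?_) hbox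
  -- the count
  have hcount : ((univ.filter fun μ : Fin (b ^ m) => ∀ j, trg b (g p j) (l j) ≤ z μ j ∧
      z μ j < trg b (g p j) (l j + w)).card : ℝ) = ∑ n ∈ idx D (2 * L - 1),
      (-1 : ℝ) ^ (∑ j, n j) * (kp g p (fun j => l j + k * n j) : ℝ) := by
    have h1 : ∀ μ : Fin (b ^ m), (∀ j, trg b (g p j) (l j) ≤ z μ j ∧
        z μ j < trg b (g p j) (l j + w)) ↔ ∀ j, FstD (g μ j) (g p j) (On k (l j) w) := by
      intro μ
      refine forall_congr' fun j => ?_
      rw [one_coord hb0 (hg μ j) (hg p j) (Nat.le_add_right _ _) (hl j) (hz μ j).1 (hz μ j).2]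
      constructor
      · rintro ⟨i, h1, h2, h3, h4⟩
        have h5 := hpat j i h1 (by rw [← hw]; exact h2)
        by_cases he : Even ((i - l j) / k)
        · exact ⟨i, ⟨h1, h2, he⟩, h4.ne, h3⟩
        · rw [if_neg he] at h5
          omega
      · rintro ⟨i, ⟨h1, h2, he⟩, h3, h4⟩
        have h5 := hpat j i h1 (by rw [← hw]; exact h2)
        rw [if_pos he] at h5
        have h6 := hg μ j i
        exact ⟨i, h1, h2, h4, by omega⟩
    have h2 : ∀ μ : Fin (b ^ m), (if (∀ j, trg b (g p j) (l j) ≤ z μ j ∧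
        z μ j < trg b (g p j) (l j + w)) then (1 : ℝ) else 0) = ∑ n ∈ idx D (2 * L - 1),
        (-1 : ℝ) ^ (∑ j, n j) * ∏ j, Zg (g μ j) (g p j) (l j + k * n j) := by
      intro μ
      have e1 : (∏ j, ∑ n ∈ range (2 * L), (-1 : ℝ) ^ n * Zg (g μ j) (g p j) (l j + k * n)) =
          ∑ n ∈ idx D (2 * L - 1), (-1 : ℝ) ^ (∑ j, n j) *
            ∏ j, Zg (g μ j) (g p j) (l j + k * n j) := by
        rw [Finset.prod_univ_sum]
        unfold idx
        rw [hP]
        refine Finset.sum_congr rfl fun n _ => ?_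
        rw [Finset.prod_mul_distrib, Finset.prod_pow_eq_pow_sum]
      rw [← e1, Finset.prod_congr rfl fun j _ => (fst_OnD hk (l j) (g μ j) (g p j)).symm,
        Finset.prod_boole]
      by_cases hc : ∀ j, trg b (g p j) (l j) ≤ z μ j ∧ z μ j < trg b (g p j) (l j + w)
      · rw [if_pos hc, if_pos]
        intro j _
        rw [← hw]
        exact (h1 μ).1 hc j
      · rw [if_neg hc, if_neg]
        intro h3
        refine hc ((h1 μ).2 fun j => ?_)
        rw [hw]
        exact h3 j (Finset.mem_univ j)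
    rw [← Finset.sum_boole, Finset.sum_congr rfl fun μ _ => h2 μ, Finset.sum_comm]
    refine Finset.sum_congr rfl fun n _ => ?_
    rw [← Finset.mul_sum]
    congr 1
    unfold kp
    rw [← Finset.sum_boole]
    refine Finset.sum_congr rfl fun μ _ => ?_
    unfold Zg
    rw [Finset.prod_boole]
    by_cases hc : ∀ j, ∀ i < l j + k * n j, g μ j i = g p j i
    · rw [if_pos hc, if_pos fun j _ => hc j]
    · rw [if_neg hc, if_neg fun h => hc fun j => h j (Finset.mem_univ j)]
  -- the volume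
  have hvol : (b : ℝ) ^ m * ∏ j, (trg b (g p j) (l j + w) - trg b (g p j) (l j)) =
      ∑ n ∈ idx D (2 * L - 1), (-1 : ℝ) ^ (∑ j, n j) *
        ((b : ℝ) ^ m / (b : ℝ) ^ (∑ j, (l j + k * n j))) := by
    have h1 : ∀ j, trg b (g p j) (l j + w) - trg b (g p j) (l j) =
        ∑ n ∈ range (2 * L), (-1 : ℝ) ^ n / (b : ℝ) ^ (l j + k * n) := by
      intro j
      have h2 : trg b (g p j) (l j + w) - trg b (g p j) (l j) =
          ∑ i ∈ Ico (l j) (l j + w), (g p j i : ℝ) / (b : ℝ) ^ (i + 1) := by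
        rw [trg, trg, Finset.sum_Ico_eq_sub _ (by omega)]
      rw [h2, ← Pool.Agent.Q174.DN.even_sum, ← Pool.Agent.Q174.DN.win_sum _ hbr k (l j) hk, hw]
      refine Finset.sum_congr rfl fun i hi => ?_
      rw [Finset.mem_Ico] at hi
      rw [hpat j i hi.1 hi.2]
      by_cases he : Even ((i - l j) / k)
      · rw [if_pos he, if_pos he, Nat.cast_sub hb1, Nat.cast_one]
      · rw [if_neg he, if_neg he, Nat.cast_zero]
    rw [Finset.prod_congr rfl fun j _ => h1 j, Finset.prod_univ_sum, Finset.mul_sum]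
    unfold idx
    rw [hP]
    refine Finset.sum_congr rfl fun n _ => ?_
    rw [Finset.prod_div_distrib, Finset.prod_pow_eq_pow_sum, Finset.prod_pow_eq_pow_sum]
    ring
  rw [hcount, hvol, ← Finset.sum_sub_distrib]
  refine Finset.sum_congr rfl fun n _ => ?_
  ring

end Pool.Agent.Q65.OS
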