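import Mathlib
import Pool.Agent.Q71.OS.Defs

/-!
# Project OS: job OS-2 (helper65)

A net with one point with the block pattern has a large discrepancy.  The proof follows
`Pool/Agent/Q237/DN/Phi.lean`.
-/

set_option autoImplicit false

namespace Pool.Agent.Q65.OS

open Finset Pool.Agent.Q71.OS Pool.Agent.Q71.DN

open Classical in
/-- For a fixed point `μ` the alternating sum is nonnegative. -/
theorem one_mu (h2 : StmAlt) {D : ℕ} (hD : 1 ≤ D) {k P z ℓ : ℕ} {l : Fin (D + 1) → ℕ}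
    (hz : z ≤ P) (hℓ : ℓ + z = (D + 1) * P) (d e : Fin (D + 1) → ℕ → ℕ)
    (dc : (Fin (D + 1) → ℕ) → ℝ)
    (hdc : ∀ n, dc n = if (∀ j, ∀ i < l j + k * n j, d j i = e j i) then 1 else 0) :
    0 ≤ ∑ n ∈ (idx D P).filter (fun n => ℓ ≤ ∑ j, n j), (-1 : ℝ) ^ (ℓ + ∑ j, n j) * dc n := by
  classical
  by_cases hb : ∀ j, ∀ i < l j, d j i = e j i
  · obtain ⟨ν, hν⟩ : ∃ ν : Fin (D + 1) → ℕ, ν = fun j =>
        Nat.findGreatest (fun y => ∀ i < l j + k * y, d j i = e j i) P := ⟨_, rfl⟩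
    have hνP : ∀ j, ν j ≤ P := fun j => by rw [hν]; exact Nat.findGreatest_le P
    have hs : ∀ j, ∀ i < l j + k * ν j, d j i = e j i := by
      intro j
      rw [hν]
      exact Nat.findGreatest_spec (P := fun y => ∀ i < l j + k * y, d j i = e j i)
        (Nat.zero_le P) (fun i hi => hb j i (by rwa [Nat.mul_zero, Nat.add_zero] at hi))
    have h3 := (h2 D P z ℓ hD hz hℓ).1 ν hνP
    refine h3.trans (le_of_eq ?_)
    have e0 : (idx D P).filter (fun n => ℓ ≤ (∑ j, n j) ∧ ∀ j, n j ≤ ν j) =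
        ((idx D P).filter (fun n => ℓ ≤ ∑ j, n j)).filter (fun n => ∀ j, n j ≤ ν j) := by
      rw [Finset.filter_filter]
    rw [e0, Finset.sum_filter]
    refine Finset.sum_congr rfl fun n hn => ?_
    rw [Finset.mem_filter, idx, Fintype.mem_piFinset] at hn
    rw [hdc n]
    have hiff : (∀ j, n j ≤ ν j) ↔ (∀ j, ∀ i < l j + k * n j, d j i = e j i) := by
      constructor
      · intro h j i hi
        refine hs j i (lt_of_lt_of_le hi ?_)
        exact Nat.add_le_add_left (Nat.mul_le_mul_left _ (h j)) _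
      · intro h j
        rw [hν]
        have := Finset.mem_range.1 (hn.1 j)
        exact Nat.le_findGreatest (by omega) (h j)
    by_cases hc : ∀ j, n j ≤ ν j
    · rw [if_pos hc, if_pos (hiff.1 hc), mul_one]
    · rw [if_neg hc, if_neg (fun h => hc (hiff.2 h)), mul_zero]
  · refine le_of_eq (Finset.sum_eq_zero fun n _ => ?_).symm
    rw [hdc n, if_neg, mul_zero]
    intro h4
    exact hb fun j i hi => h4 j i (lt_of_lt_of_le hi (Nat.le_add_right _ _))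

/-- **OS-2.** -/
theorem t_Pat (h1 : StmBox) (h2 : StmAlt) : StmPat := by
  classical
  intro b m D t L g z R p l hb hD hL hnet hz hR hl hs hpat
  obtain ⟨P, hP⟩ : ∃ P, P = 2 * L - 1 := ⟨_, rfl⟩
  obtain ⟨ℓ, hℓ'⟩ : ∃ ℓ, ℓ = D * P := ⟨_, rfl⟩
  have hℓ : ℓ + P = (D + 1) * P := by rw [hℓ', Nat.succ_mul]
  have hbox := h1 b m D (t + 2) L g z R p l hb (by omega) hL hnet.1 hz hR hl hpat
  rw [← hP] at hbox hs ⊢
  rw [← hℓ'] at hs
  have hqr : (2 : ℝ) ≤ (b : ℝ) := by exact_mod_cast hb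
  have hq0 : (0 : ℝ) < (b : ℝ) := by linarith
  have hlev : ∀ n : Fin (D + 1) → ℕ, ∑ j, (l j + (t + 2) * n j) =
      ∑ j, l j + (t + 2) * ∑ j, n j := by
    intro n
    rw [Finset.sum_add_distrib, ← Finset.mul_sum]
  obtain ⟨N, hN⟩ : ∃ N : (Fin (D + 1) → ℕ) → Fin (b ^ m) → ℝ, ∀ n μ, N n μ =
      if (∀ j, ∀ i < l j + (t + 2) * n j, g μ j i = g p j i) then 1 else 0 :=
    ⟨_, fun _ _ => rfl⟩
  have hkk : ∀ n : Fin (D + 1) → ℕ, (kp g p (fun j => l j + (t + 2) * n j) : ℝ) =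
      1 + ∑ μ ∈ univ.erase p, N n μ := by
    intro n
    have e0 : N n p = 1 := by
      rw [hN, if_pos]
      exact fun j i _ => rfl
    rw [← e0, Finset.add_sum_erase univ (N n) (Finset.mem_univ _)]
    unfold kp
    rw [← Finset.sum_boole]
    refine Finset.sum_congr rfl fun μ _ => ?_
    rw [hN]
  have hGG : ∀ n ∈ (idx D P).filter (fun n => ℓ ≤ ∑ j, n j),
      (-1 : ℝ) ^ (ℓ + ∑ j, n j) * ((kp g p (fun j => l j + (t + 2) * n j) : ℝ) -
        (b : ℝ) ^ m / (b : ℝ) ^ (∑ j, (l j + (t + 2) * n j))) =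
      (-1 : ℝ) ^ (ℓ + ∑ j, n j) * (1 - 1 / (b : ℝ) ^ (2 + (t + 2) * ((∑ j, n j) - ℓ))) +
      ∑ μ ∈ univ.erase p, (-1 : ℝ) ^ (ℓ + ∑ j, n j) * N n μ := by
    intro n hn
    rw [Finset.mem_filter] at hn
    rw [hkk n, hlev n]
    obtain ⟨e, he⟩ : ∃ e, ∑ j, n j = ℓ + e := ⟨(∑ j, n j) - ℓ, by omega⟩
    have h3 : ∑ j, l j + (t + 2) * ∑ j, n j = m + (2 + (t + 2) * ((∑ j, n j) - ℓ)) := by
      rw [he, Nat.add_sub_cancel_left, Nat.mul_add]
      omega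
    rw [h3, pow_add (b : ℝ) m, div_mul_eq_div_div, div_self (pow_pos hq0 m).ne',
      ← Finset.mul_sum]
    ring
  have hlow : ∀ n ∈ idx D P, ¬ ℓ ≤ ∑ j, n j →
      (-1 : ℝ) ^ (ℓ + ∑ j, n j) * ((kp g p (fun j => l j + (t + 2) * n j) : ℝ) -
        (b : ℝ) ^ m / (b : ℝ) ^ (∑ j, (l j + (t + 2) * n j))) = 0 := by
    intro n _ hn
    have h3 : ∑ j, l j + (t + 2) * ∑ j, n j + t ≤ m := by
      obtain ⟨e, he⟩ : ∃ e, ℓ = (∑ j, n j) + 1 + e := ⟨ℓ - (∑ j, n j) - 1, by omega⟩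
      rw [he, Nat.mul_add, Nat.mul_add] at hs
      have : 0 ≤ (t + 2) * e := Nat.zero_le _
      omega
    rw [← hlev n] at h3
    have h4 : kp g p (fun j => l j + (t + 2) * n j) =
        b ^ (m - ∑ j, (l j + (t + 2) * n j)) :=
      hnet.2 (fun j => l j + (t + 2) * n j) (g p) h3 (fun j i => hnet.1 p j i)
    have h5 : (b : ℝ) ^ m = (b : ℝ) ^ (m - ∑ j, (l j + (t + 2) * n j)) *
        (b : ℝ) ^ (∑ j, (l j + (t + 2) * n j)) := by
      rw [← pow_add, Nat.sub_add_cancel (by omega)]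
    rw [h4, h5, mul_div_assoc, div_self (pow_pos hq0 _).ne', mul_one]
    push_cast
    rw [sub_self, mul_zero]
  have hPhi : (-1 : ℝ) ^ ℓ * (∑ n ∈ idx D P, (-1 : ℝ) ^ (∑ j, n j) *
      ((kp g p (fun j => l j + (t + 2) * n j) : ℝ) -
        (b : ℝ) ^ m / (b : ℝ) ^ (∑ j, (l j + (t + 2) * n j)))) =
      ∑ n ∈ (idx D P).filter (fun n => ℓ ≤ ∑ j, n j),
        (-1 : ℝ) ^ (ℓ + ∑ j, n j) * ((kp g p (fun j => l j + (t + 2) * n j) : ℝ) -
          (b : ℝ) ^ m / (b : ℝ) ^ (∑ j, (l j + (t + 2) * n j))) := by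
    rw [Finset.mul_sum, Finset.sum_filter]
    refine Finset.sum_congr rfl fun n hn => ?_
    rw [← mul_assoc, ← pow_add]
    by_cases hc : ℓ ≤ ∑ j, n j
    · rw [if_pos hc]
    · rw [if_neg hc, hlow n hn hc]
  have h3 := (h2 D P P ℓ hD le_rfl hℓ).2 (b : ℝ) (t + 2) hqr
  have h4 : 0 ≤ ∑ μ ∈ univ.erase p,
      ∑ n ∈ (idx D P).filter (fun n => ℓ ≤ ∑ j, n j), (-1 : ℝ) ^ (ℓ + ∑ j, n j) * N n μ :=
    Finset.sum_nonneg fun μ _ => one_mu h2 hD le_rfl hℓ (g μ) (g p) (fun n => N n μ)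
      (fun n => hN n μ)
  have h5 : (1 / 2 : ℝ) * ((P / (2 * D) + 1 : ℕ) : ℝ) ^ D ≤
      (-1 : ℝ) ^ ℓ * (∑ n ∈ idx D P, (-1 : ℝ) ^ (∑ j, n j) *
      ((kp g p (fun j => l j + (t + 2) * n j) : ℝ) -
        (b : ℝ) ^ m / (b : ℝ) ^ (∑ j, (l j + (t + 2) * n j)))) := by
    rw [hPhi, Finset.sum_congr rfl hGG, Finset.sum_add_distrib, Finset.sum_comm]
    linarith
  refine h5.trans ((le_abs_self _).trans ?_)
  rw [abs_mul, abs_pow, abs_neg, abs_one, one_pow, one_mul]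
  exact hbox

end Pool.Agent.Q65.OS
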