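import Mathlib
import Pool.Agent.Q71.OS.Defs

/-!
# Project OS: job OS-4 (helper65)

Many points with prescribed digits in a window of coordinate `0` and pairwise different prefixes
in every other coordinate.
-/

set_option autoImplicit false

namespace Pool.Agent.Q65.OS

open Finset Pool.Agent.Q71.OS Pool.Agent.Q71.DN

/-- The number of points with a given prefix in one coordinate. -/
theorem card_one {b m D t : ℕ} {g : Dg b m D} (hnet : Net b t m D g) (j : Fin (D + 1)) {h : ℕ}
    (hh : h + t ≤ m) (u : ℕ → ℕ) (hu : ∀ i, u i < b) :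
    (univ.filter fun μ : Fin (b ^ m) => ∀ i < h, g μ j i = u i).card = b ^ (m - h) := by
  classical
  obtain ⟨a, ha⟩ : ∃ a : Fin (D + 1) → ℕ, a = fun j' => if j' = j then h else 0 := ⟨_, rfl⟩
  have hsum : ∑ j', a j' = h := by
    rw [ha, Finset.sum_ite_eq' univ j (fun _ => h), if_pos (Finset.mem_univ j)]
  have h1 := hnet.2 a (fun _ => u) (by rw [hsum]; exact hh) (fun _ => hu)
  rw [hsum] at h1
  rw [← h1]
  congr 1
  ext μ
  rw [Finset.mem_filter, Finset.mem_filter]
  refine and_congr_right fun _ => ?_
  constructor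
  · intro h2 j' i hi
    rw [ha] at hi
    by_cases hj : j' = j
    · rw [hj] at hi ⊢
      exact h2 i (by simpa using hi)
    · simp [hj] at hi
  · intro h2 i hi
    exact h2 j i (by rw [ha]; simpa using hi)

/-- The points with a pattern in a window of one coordinate. -/
theorem card_win {b m D t : ℕ} {g : Dg b m D} (hnet : Net b t m D g) (j : Fin (D + 1)) {l w : ℕ}
    (hh : l + w + t ≤ m) (pat : ℕ → ℕ) (hpat : ∀ i, pat i < b) :
    (univ.filter fun μ : Fin (b ^ m) => ∀ i, l ≤ i → i < l + w → g μ j i = pat i).card =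
      b ^ (m - w) := by
  classical
  obtain ⟨S, hS⟩ : ∃ S : Finset (Fin (b ^ m)), S =
    univ.filter fun μ : Fin (b ^ m) => ∀ i, l ≤ i → i < l + w → g μ j i = pat i := ⟨_, rfl⟩
  rw [← hS]
  have hfib := Finset.card_eq_sum_card_fiberwise (s := S)
    (t := (univ : Finset (Fin l → Fin b)))
    (f := fun μ (i : Fin l) => (⟨g μ j i, hnet.1 μ j i⟩ : Fin b))
    (fun x _ => Finset.mem_coe.2 (Finset.mem_univ _))
  rw [hfib]
  have hc : ∀ u ∈ (univ : Finset (Fin l → Fin b)), (S.filter fun μ =>
      (fun (i : Fin l) => (⟨g μ j i, hnet.1 μ j i⟩ : Fin b)) = u).card = b ^ (m - (l + w)) := by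
    intro u _
    have h1 := card_one hnet j hh (fun i => if h : i < l then (u ⟨i, h⟩ : ℕ) else pat i)
      (by
        intro i
        by_cases h : i < l
        · simp only [h, dif_pos]
          exact (u ⟨i, h⟩).2
        · simp only [h, dif_neg, not_false_iff]
          exact hpat i)
    rw [← h1]
    congr 1
    ext μ
    rw [Finset.mem_filter, Finset.mem_filter, hS, Finset.mem_filter]
    simp only [Finset.mem_univ, true_and]
    constructor
    · rintro ⟨h2, h3⟩ i hi
      by_cases h : i < l
      · rw [dif_pos h]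
        have := congrFun h3 ⟨i, h⟩
        rw [Fin.ext_iff] at this
        exact this
      · rw [dif_neg h]
        exact h2 i (not_lt.1 h) hi
    · intro h2
      refine ⟨fun i hi1 hi2 => ?_, ?_⟩
      · have := h2 i hi2
        rwa [dif_neg (not_lt.2 hi1)] at this
      · funext i
        have := h2 i.1 (by omega)
        rw [dif_pos i.2] at this
        exact Fin.ext this
  rw [Finset.sum_congr rfl hc, Finset.sum_const, Finset.card_univ, Fintype.card_fun,
    Fintype.card_fin, Fintype.card_fin, smul_eq_mul, ← pow_add]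
  congr 1
  omega

/-- **OS-4.** -/
theorem t_Sel : StmSel := by
  classical
  intro b m D t l w h g pat hb hD hnet hpat hlw hht hwh
  obtain ⟨S, hS⟩ : ∃ S : Finset (Fin (b ^ m)), S =
    univ.filter fun μ : Fin (b ^ m) => ∀ i, l ≤ i → i < l + w → g μ 0 i = pat i := ⟨_, rfl⟩
  have hScard : S.card = b ^ (m - w) := by
    rw [hS]
    exact card_win hnet 0 hlw pat hpat
  obtain ⟨Q, hQ⟩ : ∃ Q : Finset (Fin (b ^ m)) → Prop, Q = fun A =>
    ∀ p ∈ A, ∀ p' ∈ A, p ≠ p' → ∀ j : Fin D, ∃ i < h, g p j.succ i ≠ g p' j.succ i := ⟨_, rfl⟩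
  have hne : (S.powerset.filter Q).Nonempty := by
    refine ⟨∅, ?_⟩
    rw [Finset.mem_filter, Finset.mem_powerset, hQ]
    exact ⟨Finset.empty_subset _, fun p hp => absurd hp (Finset.notMem_empty _)⟩
  obtain ⟨A, hA, hmax⟩ := Finset.exists_max_image _ Finset.card hne
  rw [Finset.mem_filter, Finset.mem_powerset] at hA
  obtain ⟨hAS, hAQ⟩ := hA
  have hAQ' := hAQ
  rw [hQ] at hAQ'
  refine ⟨A, ?_, hAQ', ?_⟩
  · intro p hp
    have := hAS hp
    rw [hS, Finset.mem_filter] at this
    exact this.2
  · have hcov : S ⊆ A.biUnion fun p' => (univ : Finset (Fin D)).biUnion fun j =>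
        univ.filter fun μ : Fin (b ^ m) => ∀ i < h, g μ j.succ i = g p' j.succ i := by
      intro p hp
      rw [Finset.mem_biUnion]
      by_cases hpA : p ∈ A
      · refine ⟨p, hpA, ?_⟩
        rw [Finset.mem_biUnion]
        refine ⟨⟨0, hD⟩, Finset.mem_univ _, ?_⟩
        rw [Finset.mem_filter]
        exact ⟨Finset.mem_univ _, fun i _ => rfl⟩
      · by_contra hcon
        have hcon' : ∀ p' ∈ A, ∀ j : Fin D, ∃ i < h, g p j.succ i ≠ g p' j.succ i := by
          intro p' hp' j
          by_contra hc2
          push Not at hc2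
          refine hcon ⟨p', hp', ?_⟩
          rw [Finset.mem_biUnion]
          refine ⟨j, Finset.mem_univ _, ?_⟩
          rw [Finset.mem_filter]
          exact ⟨Finset.mem_univ _, hc2⟩
        have hins : insert p A ∈ S.powerset.filter Q := by
          rw [Finset.mem_filter, Finset.mem_powerset, hQ]
          refine ⟨Finset.insert_subset hp hAS, ?_⟩
          intro p1 h1 p2 h2 hne12 j
          rcases Finset.mem_insert.1 h1 with e1 | e1
          · rcases Finset.mem_insert.1 h2 with e2 | e2
            · exact absurd (e1.trans e2.symm) hne12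
            · rw [e1]
              exact hcon' p2 e2 j
          · rcases Finset.mem_insert.1 h2 with e2 | e2
            · obtain ⟨i, hi, h3⟩ := hcon' p1 e1 j
              rw [e2]
              exact ⟨i, hi, h3.symm⟩
            · exact hAQ' p1 e1 p2 e2 hne12 j
        have := hmax _ hins
        rw [Finset.card_insert_of_notMem hpA] at this
        omega
    have hle : S.card ≤ A.card * (D * b ^ (m - h)) := by
      refine (Finset.card_le_card hcov).trans ?_
      refine Finset.card_biUnion_le_card_mul _ _ _ fun p' hp' => ?_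
      refine (Finset.card_biUnion_le_card_mul _ _ (b ^ (m - h)) fun j _ => ?_).trans ?_
      · rw [card_one hnet j.succ hht (g p' j.succ) (hnet.1 p' j.succ)]
      · rw [Finset.card_univ, Fintype.card_fin]
    rw [hScard] at hle
    have hsplit : b ^ (m - w) = b ^ (h - w) * b ^ (m - h) := by
      rw [← pow_add]
      congr 1
      omega
    rw [hsplit] at hle
    have hpos : 0 < b ^ (m - h) := pow_pos (by omega) _
    refine Nat.le_of_mul_le_mul_right ?_ hpos
    calc b ^ (h - w) * b ^ (m - h) ≤ A.card * (D * b ^ (m - h)) := hle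
      _ = D * A.card * b ^ (m - h) := by ring

end Pool.Agent.Q65.OS
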