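import Mathlib
import Pool.Agent.Q71.OS.Defs

/-!
# Project OS: job OS-6 (helper65)

The proportion of bad scramblings.
-/

set_option autoImplicit false

namespace Pool.Agent.Q65.OS

open Finset Pool.Agent.Q71.OS Pool.Agent.Q71.DN

/-- The nodes of the scrambling trees. -/
abbrev Nd (b m D : ℕ) : Type := Σ (_ : Fin D), Σ (i : Fin m), (Fin (i : ℕ) → Fin b)

/-- A scrambling is a permutation at each node. -/
def eK (b m D : ℕ) : Scr b m D ≃ (Nd b m D → Equiv.Perm (Fin b)) where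
  toFun π n := π n.1 n.2.1 n.2.2
  invFun f j i u := f ⟨j, i, u⟩
  left_inv _ := rfl
  right_inv _ := rfl

/-- The node `n` is on the path of the point `p`, with the place in `[h, h + w)`. -/
def OnP {b m D : ℕ} (g : Arr b m D) (h w : ℕ) (p : Fin (b ^ m)) (n : Nd b m D) : Prop :=
  h ≤ (n.2.1 : ℕ) ∧ (n.2.1 : ℕ) < h + w ∧
    ∀ i' : Fin (n.2.1 : ℕ), n.2.2 i' = g p n.1.succ (Fin.castLE n.2.1.2.le i')

open Classical in
/-- The nodes of the path of the point `p` with the place in `[h, h + w)`. -/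
noncomputable def BB {b m D : ℕ} (g : Arr b m D) (h w : ℕ) (p : Fin (b ^ m)) :
    Finset (Nd b m D) := univ.filter (OnP g h w p)

theorem mem_BB {b m D : ℕ} (g : Arr b m D) (h w : ℕ) (p : Fin (b ^ m)) (n : Nd b m D) :
    n ∈ BB g h w p ↔ OnP g h w p n := by
  classical
  unfold BB
  rw [Finset.mem_filter]
  exact ⟨fun h => h.2, fun h => ⟨Finset.mem_univ _, h⟩⟩

theorem BB_card {b m D : ℕ} (g : Arr b m D) (h w : ℕ) (p : Fin (b ^ m)) :
    (BB g h w p).card ≤ D * w := by
  classical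
  have h1 : (BB g h w p).card ≤ ((univ : Finset (Fin D)) ×ˢ Ico h (h + w)).card := by
    refine Finset.card_le_card_of_injOn (fun n => (n.1, (n.2.1 : ℕ))) ?_ ?_
    · intro n hn
      rw [Finset.mem_coe, mem_BB] at hn
      rw [Finset.mem_coe, Finset.mem_product, Finset.mem_Ico]
      exact ⟨Finset.mem_univ _, hn.1, hn.2.1⟩
    · rintro ⟨j, i, u⟩ hn ⟨j', i', u'⟩ hn' heq
      rw [Finset.mem_coe, mem_BB] at hn hn'
      simp only [Prod.mk.injEq] at heq
      obtain ⟨h2, h3⟩ := heq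
      have h4 : i = i' := Fin.ext h3
      subst h2
      subst h4
      have h5 : u = u' := by
        funext a
        have e1 := hn.2.2 a
        have e2 := hn'.2.2 a
        exact e1.trans e2.symm
      rw [h5]
  refine h1.trans (le_of_eq ?_)
  rw [Finset.card_product, Finset.card_univ, Fintype.card_fin, Nat.card_Ico,
    Nat.add_sub_cancel_left]

/-- The proportion of the permutations with one prescribed value. -/
theorem card_G {b : ℕ} (G : Set (Equiv.Perm (Fin b))) (x y : Fin b)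
    (h : ∀ s : Equiv.Perm (Fin b), s x = y → s ∈ G) :
    Nat.card (Equiv.Perm (Fin b)) ≤ b * Nat.card G := by
  classical
  have h1 : Nat.card (Fin b × G) = b * Nat.card G := by
    rw [Nat.card_prod, Nat.card_eq_fintype_card (α := Fin b), Fintype.card_fin]
  rw [← h1]
  have hmem : ∀ s : Equiv.Perm (Fin b), Equiv.swap (s x) y * s ∈ G := by
    intro s
    refine h _ ?_
    rw [Equiv.Perm.mul_apply, Equiv.swap_apply_left]
  refine Nat.card_le_card_of_injective
    (fun s : Equiv.Perm (Fin b) => ((s x, ⟨Equiv.swap (s x) y * s, hmem s⟩) : Fin b × G)) ?_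
  intro s s' hss
  simp only [Prod.mk.injEq, Subtype.mk.injEq] at hss
  obtain ⟨h2, h3⟩ := hss
  rw [h2] at h3
  exact mul_left_cancel h3

theorem toDg_of_lt {b m D : ℕ} (g : Arr b m D) (μ : Fin (b ^ m)) (j : Fin (D + 1)) {i : ℕ}
    (hi : i < m) : toDg g μ j i = (g μ j ⟨i, hi⟩ : ℕ) := by
  unfold toDg
  rw [dif_pos hi]

/-- **OS-6.** -/
theorem t_Prob (h2 : StmPat) (h3 : StmInd) (h4 : StmSel) (h5 : StmNetScr) : StmProb := by
  classical
  intro b m D t L h l0 g hb hD hL hnet hwh hhm hlm hsum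
  obtain ⟨w, hw⟩ : ∃ w, w = (t + 2) * (2 * L) := ⟨_, rfl⟩
  rw [← hw] at hwh hhm hlm ⊢
  obtain ⟨patt, hpatt⟩ : ∃ patt : ℕ → ℕ → ℕ, patt = fun l i =>
    if Even ((i - l) / (t + 2)) then b - 1 else 0 := ⟨_, rfl⟩
  have hpb : ∀ l i, patt l i < b := by
    intro l i
    rw [hpatt]
    by_cases he : Even ((i - l) / (t + 2))
    · simp only [he, if_true]
      omega
    · simp only [he, if_false]
      omega
  obtain ⟨A, hA1, hA2, hA3⟩ := h4 b m D t l0 w h (toDg g) (patt l0) hb hD hnet (hpb l0) hlm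
    (by omega) hwh
  refine ⟨A.card, hA3, ?_⟩
  -- the good permutations
  obtain ⟨G, hG⟩ : ∃ G : Nd b m D → Set (Equiv.Perm (Fin b)), G = fun n =>
    {s | ∀ p ∈ A, n ∈ BB g h w p → (s (g p n.1.succ n.2.1) : ℕ) = patt h n.2.1} := ⟨_, rfl⟩
  obtain ⟨B, hB⟩ : ∃ B : Fin A.card → Finset (Nd b m D), B = fun i =>
    BB g h w (A.equivFin.symm i : Fin (b ^ m)) := ⟨_, rfl⟩
  have hdisj0 : ∀ p ∈ A, ∀ p' ∈ A, p ≠ p' → ∀ n, n ∈ BB g h w p → n ∉ BB g h w p' := by
    intro p hp p' hp' hne n hn hn'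
    rw [mem_BB] at hn hn'
    obtain ⟨i, hi, h6⟩ := hA2 p hp p' hp' hne n.1
    have hin : i < (n.2.1 : ℕ) := lt_of_lt_of_le hi hn.1
    have him : i < m := hin.trans n.2.1.2
    rw [toDg_of_lt g p _ him, toDg_of_lt g p' _ him] at h6
    apply h6
    have e1 := hn.2.2 ⟨i, hin⟩
    have e2 := hn'.2.2 ⟨i, hin⟩
    have e3 := e1.symm.trans e2
    exact congrArg Fin.val e3
  have hdisj : ∀ i i', i ≠ i' → Disjoint (B i) (B i') := by
    intro i i' hne
    rw [Finset.disjoint_left]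
    intro n hn hn'
    rw [hB] at hn hn'
    refine hdisj0 _ (A.equivFin.symm i).2 _ (A.equivFin.symm i').2 ?_ n hn hn'
    intro heq
    exact hne (A.equivFin.symm.injective (Subtype.ext heq))
  have hBcard : ∀ i, (B i).card ≤ D * w := by
    intro i
    rw [hB]
    exact BB_card g h w _
  have hGcard : ∀ n, Nat.card (Equiv.Perm (Fin b)) ≤ b * Nat.card (G n) := by
    intro n
    by_cases hex : ∃ p ∈ A, n ∈ BB g h w p
    · obtain ⟨p, hp, hn⟩ := hex
      refine card_G (G n) (g p n.1.succ n.2.1) ⟨patt h n.2.1, hpb h _⟩ ?_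
      intro s hs
      rw [hG]
      intro p' hp' hn'
      by_cases hpp : p' = p
      · rw [hpp, hs]
      · exact absurd hn (hdisj0 p' hp' p hp hpp n hn')
    · have hb0 : 0 < b := by omega
      refine card_G (G n) ⟨0, hb0⟩ ⟨0, hb0⟩ ?_
      intro s _
      rw [hG]
      intro p' hp' hn'
      exact absurd ⟨p', hp', hn'⟩ hex
  have hmain := h3 (Nd b m D) (Equiv.Perm (Fin b)) A.card (D * w) b B G (by omega) hdisj hBcard
    hGcard ⟨Equiv.refl _⟩
  rw [Nat.card_congr (eK b m D)]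
  refine le_trans ?_ hmain
  have hbad : ∀ π : Scr b m D, (∃ (z : Fin (b ^ m) → Fin (D + 1) → ℝ) (R : ℝ),
        IsDg (toDg (scr1 π g)) z ∧ BdN z R ∧
          R < (1 / 2 : ℝ) * (((2 * L - 1) / (2 * D) + 1 : ℕ) : ℝ) ^ D) →
      ∀ i, ∃ n ∈ B i, eK b m D π n ∉ G n := by
    rintro π ⟨z, R, hz, hR, hlt⟩ i
    by_contra hcon
    push Not at hcon
    obtain ⟨p, hp⟩ : ∃ p : Fin (b ^ m), p = (A.equivFin.symm i : Fin (b ^ m)) := ⟨_, rfl⟩
    have hpA : p ∈ A := by rw [hp]; exact (A.equivFin.symm i).2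
    have hgood : ∀ n ∈ BB g h w p, eK b m D π n ∈ G n := by
      intro n hn
      refine hcon n ?_
      rw [hB]
      rw [hp] at hn
      exact hn
    obtain ⟨l, hl⟩ : ∃ l : Fin (D + 1) → ℕ, l = Fin.cons (α := fun _ => ℕ) l0 (fun _ => h) :=
      ⟨_, rfl⟩
    have hl0 : l 0 = l0 := by rw [hl, Fin.cons_zero]
    have hls : ∀ j : Fin D, l j.succ = h := by
      intro j
      rw [hl, Fin.cons_succ]
    have hpat : Pat (t + 2) L l (toDg (scr1 π g)) p := by
      intro j
      rw [← hw]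
      refine Fin.cases ?_ (fun j => ?_) j
      · rw [hl0]
        intro i hi1 hi2
        have him : i < m := by omega
        have h6 := hA1 p hpA i hi1 hi2
        rw [toDg_of_lt _ _ _ him] at h6 ⊢
        rw [hpatt] at h6
        exact h6
      · rw [hls j]
        intro i hi1 hi2
        have him : i < m := by omega
        obtain ⟨n, hn⟩ : ∃ n : Nd b m D, n = ⟨j, ⟨i, him⟩, fun i' => g p j.succ
          (Fin.castLE him.le i')⟩ := ⟨_, rfl⟩
        have hnB : n ∈ BB g h w p := by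
          rw [mem_BB, hn]
          exact ⟨hi1, hi2, fun i' => rfl⟩
        have h6 := hgood n hnB
        rw [hG] at h6
        have h7 := h6 p hpA hnB
        rw [hn, hpatt] at h7
        rw [toDg_of_lt _ _ _ him]
        exact h7
    have hnet' : Net b t m D (toDg (scr1 π g)) := h5 b m D t g _ (by omega) hnet
    have h6 := h2 b m D t L (toDg (scr1 π g)) z R p l hb hD hL hnet' hz hR ?_ ?_ hpat
    · exact absurd hlt (not_lt.2 h6)
    · intro j
      rw [← hw]
      refine Fin.cases ?_ (fun j => ?_) j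
      · rw [hl0]
        omega
      · rw [hls j]
        omega
    · rw [Fin.sum_univ_succ, hl0, Finset.sum_congr rfl fun j _ => hls j, Finset.sum_const,
        Finset.card_univ, Fintype.card_fin, smul_eq_mul]
      exact hsum
  have hinj : Nat.card {π : Scr b m D // ∃ (z : Fin (b ^ m) → Fin (D + 1) → ℝ) (R : ℝ),
        IsDg (toDg (scr1 π g)) z ∧ BdN z R ∧
          R < (1 / 2 : ℝ) * (((2 * L - 1) / (2 * D) + 1 : ℕ) : ℝ) ^ D} ≤
      Nat.card {f : Nd b m D → Equiv.Perm (Fin b) // ∀ i, ∃ n ∈ B i, f n ∉ G n} := by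
    refine Nat.card_le_card_of_injective (fun π => ⟨eK b m D π.1, hbad π.1 π.2⟩) ?_
    intro π π' hππ
    simp only [Subtype.mk.injEq] at hππ
    exact Subtype.ext ((eK b m D).injective hππ)
  exact_mod_cast hinj

end Pool.Agent.Q65.OS
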